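import Pool.Agent.R551.VP.Lengths

/-!
# The adversary

The edges at the vantage points get small capacities, in the order in which the vantage points are
chosen, so every vantage point reveals only edges at vantage points.
-/

set_option autoImplicit false
set_option linter.unusedSectionVars false

open scoped Classical

namespace Pool.Agent.R551.VP

open SimpleGraph Finset

variable {V : Type} [Fintype V]

/-- The index of the first vertex of `l` that is an end of `e`. -/
noncomputable def idx (l : List V) (e : Sym2 V) : ℕ := l.findIdx fun v => decide (v ∈ e)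

/-- The capacity of an edge with an end in `l`. -/
noncomputable def rk (l : List V) (e : Sym2 V) : ℕ := idx l e * KK V + enc e + 1

/-- The capacities that the adversary may still choose after the vantage points in `l`. -/
def CC (l : List V) : Set (Sym2 V → ℝ) :=
  {c | (∀ e, 0 < c e) ∧ Function.Injective c ∧ (∀ e, (∃ v ∈ l, v ∈ e) → c e = (rk l e : ℝ)) ∧
    ∀ e, (∀ v ∈ l, v ∉ e) → ((l.length * KK V : ℕ) : ℝ) < c e}

theorem idx_lt {l : List V} {e : Sym2 V} (h : ∃ v ∈ l, v ∈ e) : idx l e < l.length := by
  unfold idx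
  rw [List.findIdx_lt_length]
  simpa using h

theorem idx_eq {l : List V} {e : Sym2 V} (h : ∀ v ∈ l, v ∉ e) : idx l e = l.length := by
  unfold idx
  rw [List.findIdx_eq_length]
  simpa using h

theorem rk_le {l : List V} {e : Sym2 V} (h : ∃ v ∈ l, v ∈ e) : rk l e ≤ l.length * KK V := by
  have h1 := idx_lt h
  have h2 := enc_lt e
  unfold rk
  calc idx l e * KK V + enc e + 1 ≤ idx l e * KK V + KK V := by omega
    _ = (idx l e + 1) * KK V := by ring
    _ ≤ l.length * KK V := Nat.mul_le_mul_right _ h1

theorem idx_append {l : List V} {e : Sym2 V} (s : V) (h : ∃ v ∈ l, v ∈ e) :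
    idx (l ++ [s]) e = idx l e := by
  have := idx_lt h
  unfold idx at this ⊢
  rw [List.findIdx_append, if_pos this]

theorem CC_mono (l : List V) (s : V) : CC (l ++ [s]) ⊆ CC l := by
  rintro c ⟨h1, h2, h3, h4⟩
  refine ⟨h1, h2, fun e he => ?_, fun e he => ?_⟩
  · rw [h3 e (by obtain ⟨v, hv, hve⟩ := he; exact ⟨v, by simp [hv], hve⟩), rk, rk,
      idx_append s he]
  · by_cases hs : s ∈ e
    · rw [h3 e ⟨s, by simp, hs⟩]
      have h5 : idx (l ++ [s]) e = l.length := by
        have : ¬ idx l e < l.length := by rw [idx_eq he]; omega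
        unfold idx at this ⊢
        rw [List.findIdx_append, if_neg this]
        simp [hs]
      rw [rk, h5]
      exact_mod_cast (by omega : l.length * KK V < l.length * KK V + enc e + 1)
    · have h5 := h4 e (by
        intro v hv
        rw [List.mem_append, List.mem_singleton] at hv
        rcases hv with hv | rfl
        · exact he v hv
        · exact hs)
      refine lt_of_le_of_lt ?_ h5
      have : l.length * KK V ≤ (l ++ [s]).length * KK V := Nat.mul_le_mul_right _ (by simp)
      exact_mod_cast this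

theorem enc_of_eq {a b : ℕ} {e f : Sym2 V} (h : a * KK V + enc e + 1 = b * KK V + enc f + 1) :
    e = f := by
  apply enc_inj
  have h1 : (a * KK V + enc e) % KK V = (b * KK V + enc f) % KK V := by
    congr 1
    omega
  rwa [add_comm, Nat.add_mul_mod_self_right, add_comm (b * KK V), Nat.add_mul_mod_self_right,
    Nat.mod_eq_of_lt (enc_lt e), Nat.mod_eq_of_lt (enc_lt f)] at h1

/-- Capacities of the form `(f e) K + enc e + 1`. -/
theorem mem_CC (l : List V) (f : Sym2 V → ℕ) (h1 : ∀ e, (∃ v ∈ l, v ∈ e) → f e = idx l e)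
    (h2 : ∀ e, (∀ v ∈ l, v ∉ e) → l.length ≤ f e) :
    (fun e => ((f e * KK V + enc e + 1 : ℕ) : ℝ)) ∈ CC l := by
  refine ⟨fun e => ?_, fun e e' h => ?_, fun e he => ?_, fun e he => ?_⟩
  · positivity
  · exact enc_of_eq (Nat.cast_injective h)
  · show ((f e * KK V + enc e + 1 : ℕ) : ℝ) = _
    rw [h1 e he, rk]
  · have := Nat.mul_le_mul_right (KK V) (h2 e he)
    show ((l.length * KK V : ℕ) : ℝ) < ((f e * KK V + enc e + 1 : ℕ) : ℝ)
    exact_mod_cast (by omega : l.length * KK V < f e * KK V + enc e + 1)

theorem CC_nonempty (l : List V) : ∃ c, c ∈ CC l :=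
  ⟨_, mem_CC l (idx l) (fun _ _ => rfl) fun _ he => (idx_eq he).ge⟩

/-- A bottleneck edge seen from a vertex in `l` has an end in `l`. -/
theorem incident_of_bottleneck {G : SimpleGraph V} {len c : Sym2 V → ℝ} {l : List V}
    (hc : c ∈ CC l) {s t : V} (hs : s ∈ l) {e : Sym2 V} (he : IsBottleneck G len c s t e) :
    ∃ v ∈ l, v ∈ e := by
  obtain ⟨p, -, hep, hmin⟩ := he
  cases p with
  | nil => simp at hep
  | @cons _ a _ h p =>
    by_contra hcon
    push Not at hcon
    have h1 : c e ≤ c s(s, a) := by
      by_cases heq : s(s, a) = e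
      · rw [heq]
      · exact (hmin _ (by simp) heq).le
    have h2 : c s(s, a) ≤ ((l.length * KK V : ℕ) : ℝ) := by
      have hinc : ∃ v ∈ l, v ∈ s(s, a) := ⟨s, hs, by simp⟩
      rw [hc.2.2.1 _ hinc]
      exact_mod_cast rk_le hinc
    exact absurd (hc.2.2.2 e hcon) (not_lt.2 (h1.trans h2))

theorem bottleneck_congr {G : SimpleGraph V} {len c c' : Sym2 V → ℝ} {l : List V}
    (hc : c ∈ CC l) (hc' : c' ∈ CC l) {s t : V} (hs : s ∈ l) {e : Sym2 V}
    (he : IsBottleneck G len c s t e) : IsBottleneck G len c' s t e ∧ c e = c' e := by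
  have hinc := incident_of_bottleneck hc hs he
  have hce : c e = c' e := by rw [hc.2.2.1 _ hinc, hc'.2.2.1 _ hinc]
  obtain ⟨p, hp, hep, hmin⟩ := he
  refine ⟨⟨p, hp, hep, fun e' he' hne => ?_⟩, hce⟩
  by_cases h : ∃ v ∈ l, v ∈ e'
  · rw [← hce, hc'.2.2.1 _ h, ← hc.2.2.1 _ h]
    exact hmin e' he' hne
  · push Not at h
    refine lt_of_le_of_lt ?_ (hc'.2.2.2 e' h)
    rw [hc'.2.2.1 _ hinc]
    exact_mod_cast rk_le hinc

theorem answer_congr {G : SimpleGraph V} {len c c' : Sym2 V → ℝ} {l : List V}
    (hc : c ∈ CC l) (hc' : c' ∈ CC l) {s : V} (hs : s ∈ l) :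
    answer G len c s = answer G len c' s := by
  funext t
  ext ⟨e, y⟩
  constructor
  · rintro ⟨h1, h2⟩
    obtain ⟨h3, h4⟩ := bottleneck_congr hc hc' hs h1
    exact ⟨h3, h2.trans h4⟩
  · rintro ⟨h1, h2⟩
    obtain ⟨h3, h4⟩ := bottleneck_congr hc' hc hs h1
    exact ⟨h3, h2.trans h4⟩

/-- The vantage points in `l` reveal few capacities. -/
theorem ncard_revealed_le' {G : SimpleGraph V} (hG : ∀ v, G.degree v ≤ 3) {len c : Sym2 V → ℝ}
    {l : List V} (hc : c ∈ CC l) (S : Finset V) (hS : ∀ v, v ∈ S ↔ v ∈ l) :
    (revealed G len c S).ncard ≤ 3 * l.toFinset.card := by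
  have h1 : revealed G len c S ⊆ ((l.toFinset.biUnion fun v => G.incidenceFinset v :
      Finset (Sym2 V)) : Set (Sym2 V)) := by
    rintro e ⟨s, hs, t, he⟩
    obtain ⟨v, hv, hve⟩ := incident_of_bottleneck hc ((hS s).1 hs) he
    obtain ⟨p, -, hep, -⟩ := he
    rw [Finset.mem_coe, mem_biUnion]
    refine ⟨v, by simpa using hv, ?_⟩
    rw [mem_incidenceFinset]
    exact ⟨p.edges_subset_edgeSet hep, hve⟩
  calc (revealed G len c S).ncard
      ≤ ((l.toFinset.biUnion fun v => G.incidenceFinset v :
          Finset (Sym2 V)) : Set (Sym2 V)).ncard := Set.ncard_le_ncard h1 (Set.toFinite _)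
    _ = (l.toFinset.biUnion fun v => G.incidenceFinset v).card := Set.ncard_coe_finset _
    _ ≤ l.toFinset.card * 3 := card_biUnion_le_card_mul _ _ _ fun v _ => by
        rw [card_incidenceFinset_eq_degree]; exact hG v
    _ = 3 * l.toFinset.card := by ring

section runs

variable {A : Algorithm V} {G : SimpleGraph V} {len : Sym2 V → ℝ}

theorem run_append {c : Sym2 V → ℝ} (h r : History V) (x : V × (V → Set (Sym2 V × ℝ)))
    (hr : Run A G len c (h ++ x :: r)) : A h = some x.1 ∧ x.2 = answer G len c x.1 := by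
  generalize hk : h ++ x :: r = h' at hr
  induction hr generalizing r with
  | nil => simp at hk
  | step h₁ s h2 h3 ih =>
    rcases List.eq_nil_or_concat r with rfl | ⟨r', y, rfl⟩
    · have := List.append_inj' hk rfl
      obtain ⟨rfl, h5⟩ := this
      simp only [List.cons.injEq, and_true] at h5
      subst h5
      exact ⟨h3, rfl⟩
    · have h4 : h ++ x :: r' ++ [y] = h₁ ++ [(s, answer G len c s)] := by
        rw [← hk]; simp
      have := List.append_inj' h4 rfl
      exact ih r' this.1

/-- Every run is an initial part of the final run. -/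
theorem run_prefix {c : Sym2 V → ℝ} {h hf : History V} (hr : Run A G len c h)
    (hrf : Run A G len c hf) (hstop : A hf = none) : ∃ r, hf = h ++ r := by
  induction hr with
  | nil => exact ⟨hf, rfl⟩
  | step h₁ s h2 h3 ih =>
    obtain ⟨r, hr⟩ := ih
    cases r with
    | nil =>
      rw [List.append_nil] at hr
      rw [hr, h3] at hstop
      simp at hstop
    | cons x r =>
      rw [hr] at hrf
      obtain ⟨h4, h5⟩ := run_append h₁ r x hrf
      rw [h3] at h4
      have h6 : s = x.1 := by simpa using h4
      refine ⟨r, ?_⟩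
      rw [hr]
      have h7 : x = (s, answer G len c s) := Prod.ext h6.symm (by rw [h5, h6])
      rw [← h7]
      simp

/-- The history `h` is reached for all capacities in `CC l`, and `l` are the vantage points. -/
def St (A : Algorithm V) (G : SimpleGraph V) (len : Sym2 V → ℝ) (l : List V) (h : History V) :
    Prop :=
  (∀ v, v ∈ l ↔ ∃ x ∈ h, x.1 = v) ∧ ∀ c ∈ CC l, Run A G len c h

theorem st_step (l : List V) (c₀ : Sym2 V → ℝ) (hc₀ : c₀ ∈ CC l) (hf : History V)
    (hrf : Run A G len c₀ hf) (hstop : A hf = none) (n : ℕ) :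
    ∀ h : History V, St A G len l h → hf.length - h.length ≤ n →
      (∃ h', St A G len l h' ∧ A h' = none) ∨ ∃ s h', s ∉ l ∧ St A G len (l ++ [s]) h' := by
  induction n with
  | zero =>
    intro h hst hn
    obtain ⟨r, hr⟩ := run_prefix (hst.2 c₀ hc₀) hrf hstop
    have : r = [] := by
      rw [hr, List.length_append] at hn
      exact List.length_eq_zero_iff.1 (by omega)
    rw [this, List.append_nil] at hr
    exact Or.inl ⟨h, hst, by rw [← hr]; exact hstop⟩
  | succ n ih =>
    intro h hst hn
    cases hA : A h with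
    | none => exact Or.inl ⟨h, hst, hA⟩
    | some s =>
      by_cases hs : s ∈ l
      · refine ih (h ++ [(s, answer G len c₀ s)]) ⟨fun v => ?_, fun c hc => ?_⟩ ?_
        · rw [hst.1 v]
          constructor
          · rintro ⟨x, hx, hxv⟩
            exact ⟨x, by simp [hx], hxv⟩
          · rintro ⟨x, hx, hxv⟩
            rw [List.mem_append, List.mem_singleton] at hx
            rcases hx with hx | rfl
            · exact ⟨x, hx, hxv⟩
            · rw [← hst.1 v, ← hxv]
              exact hs
        · rw [← answer_congr hc hc₀ hs]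
          exact Run.step h s (hst.2 c hc) hA
        · obtain ⟨r, hr⟩ := run_prefix (hst.2 c₀ hc₀) hrf hstop
          have : r ≠ [] := by
            rintro rfl
            rw [List.append_nil] at hr
            rw [hr, hA] at hstop
            simp at hstop
          have hpos := List.length_pos_iff.2 this
          rw [hr, List.length_append] at hn ⊢
          simp only [List.length_append, List.length_singleton]
          omega
      · obtain ⟨c₁, hc₁⟩ := CC_nonempty (l ++ [s])
        refine Or.inr ⟨s, h ++ [(s, answer G len c₁ s)], hs, fun v => ?_, fun c hc => ?_⟩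
        · rw [List.mem_append, List.mem_singleton, hst.1 v]
          constructor
          · rintro (⟨x, hx, hxv⟩ | rfl)
            · exact ⟨x, by simp [hx], hxv⟩
            · exact ⟨(v, answer G len c₁ v), by simp, rfl⟩
          · rintro ⟨x, hx, hxv⟩
            rw [List.mem_append, List.mem_singleton] at hx
            rcases hx with hx | rfl
            · exact Or.inl ⟨x, hx, hxv⟩
            · exact Or.inr hxv.symm
        · rw [← answer_congr hc hc₁ (by simp)]
          exact Run.step h s (hst.2 c (CC_mono l s hc)) hA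

/-- The adversary: after `j` different vantage points, or after fewer ones if the algorithm stops
before. -/
theorem st_all (hA : ∀ c : Sym2 V → ℝ, (∀ e, 0 < c e) → Function.Injective c →
      ∃ hf, Run A G len c hf ∧ A hf = none) (j : ℕ) :
    (∃ l h, l.length ≤ j ∧ St A G len l h ∧ A h = none) ∨
      ∃ l h, l.Nodup ∧ l.length = j ∧ St A G len l h := by
  induction j with
  | zero =>
    exact Or.inr ⟨[], [], List.nodup_nil, rfl, by simp, fun c _ => Run.nil⟩
  | succ j ih =>
    rcases ih with ⟨l, h, h1, h2, h3⟩ | ⟨l, h, hnd, hl, hst⟩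
    · exact Or.inl ⟨l, h, by omega, h2, h3⟩
    · obtain ⟨c₀, hc₀⟩ := CC_nonempty l
      obtain ⟨hf, hrf, hstop⟩ := hA c₀ hc₀.1 hc₀.2.1
      rcases st_step l c₀ hc₀ hf hrf hstop _ h hst le_rfl with ⟨h', h1, h2⟩ | ⟨s, h', hs, h1⟩
      · exact Or.inl ⟨l, h', by omega, h1, h2⟩
      · refine Or.inr ⟨l ++ [s], h', ?_, by simp [hl], h1⟩
        rw [List.nodup_append]
        refine ⟨hnd, List.nodup_singleton s, ?_⟩
        intro a ha b hb
        rw [List.mem_singleton] at hb
        rintro rfl
        exact hs (hb ▸ ha)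

end runs

end Pool.Agent.R551.VP
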