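import Mathlib

/-!
# Vantage points and bottleneck edges: definitions
-/

set_option autoImplicit false

namespace Pool.Agent.R551.VP

open SimpleGraph

variable {V : Type}

/-- The total length of a walk, for the edge lengths `len`. -/
def wlen {G : SimpleGraph V} (len : Sym2 V → ℝ) {s t : V} (p : G.Walk s t) : ℝ :=
  (p.edges.map len).sum

/-- `p` is a shortest walk between its ends (for positive lengths: a shortest path). -/
def IsShortest {G : SimpleGraph V} (len : Sym2 V → ℝ) {s t : V} (p : G.Walk s t) : Prop :=
  ∀ q : G.Walk s t, wlen len p ≤ wlen len q

/-- All edge lengths are positive, and any two vertices in the same component are joined by a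
unique shortest path. -/
def Admissible (G : SimpleGraph V) (len : Sym2 V → ℝ) : Prop :=
  (∀ e ∈ G.edgeSet, 0 < len e) ∧
    ∀ s t : V, G.Reachable s t → ∃! p : G.Walk s t, IsShortest len p

/-- `e` is the bottleneck edge of the shortest path from `s` to `t`: it is an edge of this path,
and its capacity is smaller than the capacities of all other edges of this path. -/
def IsBottleneck (G : SimpleGraph V) (len c : Sym2 V → ℝ) (s t : V) (e : Sym2 V) : Prop :=
  ∃ p : G.Walk s t, IsShortest len p ∧ e ∈ p.edges ∧ ∀ e' ∈ p.edges, e' ≠ e → c e < c e'

/-- `R(S)`: the edges that are bottleneck edges of `P(s, t)` for some `s ∈ S` and some `t`. -/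
def revealed (G : SimpleGraph V) (len c : Sym2 V → ℝ) (S : Finset V) : Set (Sym2 V) :=
  {e | ∃ s ∈ S, ∃ t, IsBottleneck G len c s t e}

/-- What the algorithm learns at the vantage point `s`: for every `t` the bottleneck edge of
`P(s, t)` (if there is one) together with its capacity. -/
def answer (G : SimpleGraph V) (len c : Sym2 V → ℝ) (s : V) : V → Set (Sym2 V × ℝ) :=
  fun t => {x | IsBottleneck G len c s t x.1 ∧ x.2 = c x.1}

/-- The vantage points chosen so far, in this order, with everything learned there. -/
abbrev History (V : Type) : Type := List (V × (V → Set (Sym2 V × ℝ)))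

/-- A deterministic adaptive algorithm (for a graph, lengths and `k` that it knows): it maps the
history to the next vantage point, or stops (`none`). -/
abbrev Algorithm (V : Type) : Type := History V → Option V

/-- `Run A G len c h`: the algorithm `A` reaches the history `h` if the capacities are `c`. -/
inductive Run (A : Algorithm V) (G : SimpleGraph V) (len c : Sym2 V → ℝ) : History V → Prop
  | nil : Run A G len c []
  | step (h : History V) (s : V) : Run A G len c h → A h = some s →
      Run A G len c (h ++ [(s, answer G len c s)])

/-- For the capacities `c` the algorithm stops, and `S` is the set of the vantage points that it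
has chosen. -/
def EndsWith (A : Algorithm V) (G : SimpleGraph V) (len c : Sym2 V → ℝ) (S : Finset V) : Prop :=
  ∃ h : History V, Run A G len c h ∧ A h = none ∧ ∀ v, v ∈ S ↔ ∃ x ∈ h, x.1 = v

/-- `S` reveals at least `OPT(G, c, k)` capacities. -/
def RevealsOpt (G : SimpleGraph V) (len c : Sym2 V → ℝ) (k : ℕ) (S : Finset V) : Prop :=
  ∀ S' : Finset V, S'.card = k → (revealed G len c S').ncard ≤ (revealed G len c S).ncard

end Pool.Agent.R551.VP
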