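import Mathlib

/-!
# Sparse graphs without short cycles

For every `g` every finite vertex set carries a graph with maximum degree at most three, without
cycles of length at most `g`, in which all but at most `4 ^ g` vertices have degree three
(take a maximal graph of the first two kinds).
-/

set_option autoImplicit false
set_option linter.unusedSectionVars false

open scoped Classical

namespace Pool.Agent.R551.VP

open SimpleGraph Finset

variable {V : Type} [Fintype V]

/-- No cycles of length at most `g`. -/
def NoShort (G : SimpleGraph V) (g : ℕ) : Prop :=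
  ∀ (a : V) (w : G.Walk a a), w.IsCycle → g < w.length

/-- The vertices reached from `s` by at most `r` steps. -/
noncomputable def ball (G : SimpleGraph V) (s : V) : ℕ → Finset V
  | 0 => {s}
  | r + 1 => ball G s r ∪ (ball G s r).biUnion fun v => G.neighborFinset v

theorem ball_mono (G : SimpleGraph V) (s : V) {r r' : ℕ} (h : r ≤ r') :
    ball G s r ⊆ ball G s r' := by
  induction r', h using Nat.le_induction with
  | base => exact fun _ h => h
  | succ n _ ih => exact ih.trans (by rw [ball]; exact subset_union_left)

theorem card_ball_le (G : SimpleGraph V) (hG : ∀ v, G.degree v ≤ 3) (s : V) (r : ℕ) :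
    (ball G s r).card ≤ 4 ^ r := by
  induction r with
  | zero => simp [ball]
  | succ r ih =>
    rw [ball]
    calc (ball G s r ∪ (ball G s r).biUnion fun v => G.neighborFinset v).card
        ≤ (ball G s r).card + ((ball G s r).biUnion fun v => G.neighborFinset v).card :=
          card_union_le _ _
      _ ≤ (ball G s r).card + (ball G s r).card * 3 := by
          gcongr
          exact card_biUnion_le_card_mul _ _ _ fun v _ => by
            rw [card_neighborFinset_eq_degree]; exact hG v
      _ = 4 * (ball G s r).card := by ring
      _ ≤ 4 * 4 ^ r := by gcongr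
      _ = 4 ^ (r + 1) := by ring

theorem mem_ball_of_walk (G : SimpleGraph V) {s t : V} (p : G.Walk s t) :
    t ∈ ball G s p.length := by
  induction p using Walk.concatRec with
  | Hnil => simp [ball]
  | Hconcat p h ih =>
    rw [Walk.length_concat, ball]
    exact mem_union_right _ (mem_biUnion.2 ⟨_, ih, by simpa using h⟩)

theorem split_walk {G : SimpleGraph V} {u v : V} {a b : V} (w : (G ⊔ edge u v).Walk a b)
    (hw : w.IsTrail) (he : s(u, v) ∈ w.edges) :
    ∃ x y : V, s(x, y) = s(u, v) ∧ ∃ (p : G.Walk a x) (q : G.Walk y b),
      p.length + q.length + 1 = w.length := by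
  induction w with
  | nil => simp at he
  | @cons a a' b h w ih =>
    rw [Walk.isTrail_cons] at hw
    by_cases hx : s(a, a') = s(u, v)
    · refine ⟨a, a', hx, Walk.nil, w.transfer G ?_, ?_⟩
      · intro e hew
        have h1 : e ∈ (G ⊔ edge u v).edgeSet := w.edges_subset_edgeSet hew
        induction e using Sym2.ind with
        | _ x y =>
          rw [mem_edgeSet, sup_adj] at h1
          rcases h1 with h1 | h1
          · exact h1
          · exfalso
            rw [edge_adj] at h1
            have h2 : s(x, y) = s(u, v) := by
              rw [Sym2.eq_iff]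
              tauto
            rw [h2, ← hx] at hew
            exact hw.2 hew
      · simp
    · rw [Walk.edges_cons, List.mem_cons] at he
      rcases he with he | he
      · exact absurd he.symm hx
      · obtain ⟨x, y, hxy, p, q, hl⟩ := ih hw.1 he
        have hadj : G.Adj a a' := by
          rcases h with h | h
          · exact h
          · exfalso
            rw [edge_adj] at h
            apply hx
            rw [Sym2.eq_iff]
            tauto
        exact ⟨x, y, hxy, Walk.cons hadj p, q, by simp; omega⟩

/-- Adding an edge between vertices that are not joined by a short walk creates no short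
cycle. -/
theorem noShort_sup_edge {G : SimpleGraph V} {g : ℕ} (hG : NoShort G g) {u v : V}
    (huv : ∀ p : G.Walk u v, g ≤ p.length) : NoShort (G ⊔ edge u v) g := by
  intro a w hw
  by_cases he : s(u, v) ∈ w.edges
  · obtain ⟨x, y, hxy, p, q, hl⟩ := split_walk w hw.isCircuit.isTrail he
    rw [Sym2.eq_iff] at hxy
    rcases hxy with ⟨rfl, rfl⟩ | ⟨rfl, rfl⟩
    · have := huv (q.append p).reverse
      simp at this
      omega
    · have := huv (q.append p)
      simp at this
      omega
  · have hmem : ∀ e ∈ w.edges, e ∈ G.edgeSet := by
      intro e hew
      have h1 : e ∈ (G ⊔ edge u v).edgeSet := w.edges_subset_edgeSet hew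
      induction e using Sym2.ind with
      | _ x y =>
        rw [mem_edgeSet, sup_adj] at h1
        rcases h1 with h1 | h1
        · exact h1
        · exfalso
          rw [edge_adj] at h1
          have h2 : s(x, y) = s(u, v) := by
            rw [Sym2.eq_iff]
            tauto
          rw [h2] at hew
          exact he hew
    have := hG a _ (hw.transfer hmem)
    simpa using this

theorem degree_le_card (H : SimpleGraph V) (x : V) (S : Finset V) (h : ∀ y, H.Adj x y → y ∈ S) :
    H.degree x ≤ S.card := by
  rw [← card_neighborFinset_eq_degree]
  exact card_le_card fun y hy => h y (by simpa using hy)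

/-- For every `g` there is a graph with maximum degree at most three, without cycles of length at
most `g` and with at most `4 ^ g` vertices of degree less than three. -/
theorem exists_graph (V : Type) [Fintype V] (g : ℕ) (hg : 2 ≤ g) :
    ∃ G : SimpleGraph V, (∀ v, G.degree v ≤ 3) ∧ NoShort G g ∧
      (univ.filter fun v => G.degree v ≤ 2).card ≤ 4 ^ g := by
  let P : SimpleGraph V → Prop := fun G => (∀ v, G.degree v ≤ 3) ∧ NoShort G g
  have hne : {G | P G}.Nonempty := by
    refine ⟨⊥, fun v => by simp, fun a w hw => ?_⟩
    exact absurd hw (isAcyclic_bot w)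
  obtain ⟨G, hG⟩ := (Set.toFinite {G | P G}).exists_maximal hne
  refine ⟨G, hG.prop.1, hG.prop.2, ?_⟩
  rcases (univ.filter fun v => G.degree v ≤ 2).eq_empty_or_nonempty with h0 | ⟨u, hu⟩
  · rw [h0]; simp
  have hu2 : G.degree u ≤ 2 := (mem_filter.1 hu).2
  refine (card_le_card ?_).trans (card_ball_le G hG.prop.1 u g)
  intro v hv
  have hv2 : G.degree v ≤ 2 := (mem_filter.1 hv).2
  by_contra hcon
  have hfar : ∀ p : G.Walk u v, g ≤ p.length := by
    intro p
    by_contra hlt
    push Not at hlt
    exact hcon (ball_mono G u hlt.le (mem_ball_of_walk G p))
  have huv : u ≠ v := by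
    rintro rfl
    have := hfar Walk.nil
    simp at this
    omega
  have hnadj : ¬ G.Adj u v := by
    intro h
    have := hfar (Walk.cons h Walk.nil)
    simp at this
    omega
  have hP : P (G ⊔ edge u v) := by
    refine ⟨fun x => ?_, noShort_sup_edge hG.prop.2 hfar⟩
    by_cases hxu : x = u
    · subst hxu
      refine (degree_le_card (G ⊔ edge x v) x (insert v (G.neighborFinset x)) ?_).trans ?_
      · intro y hy
        simp only [sup_adj, edge_adj, mem_insert, mem_neighborFinset] at hy ⊢
        tauto
      · refine (card_insert_le _ _).trans ?_
        rw [card_neighborFinset_eq_degree]; omega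
    · by_cases hxv : x = v
      · subst hxv
        refine (degree_le_card (G ⊔ edge u x) x (insert u (G.neighborFinset x)) ?_).trans ?_
        · intro y hy
          simp only [sup_adj, edge_adj, mem_insert, mem_neighborFinset] at hy ⊢
          tauto
        · refine (card_insert_le _ _).trans ?_
          rw [card_neighborFinset_eq_degree]; omega
      · refine (degree_le_card (G ⊔ edge u v) x (G.neighborFinset x) ?_).trans ?_
        · intro y hy
          simp only [sup_adj, edge_adj, mem_neighborFinset] at hy ⊢
          tauto
        · rw [card_neighborFinset_eq_degree]; exact hG.prop.1 x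
  have hle := hG.le_of_ge hP le_sup_left
  have : (G ⊔ edge u v).Adj u v := by
    right
    rw [edge_adj]
    tauto
  exact hnadj (hle this)

/-- Short paths are unique. -/
theorem path_unique {G : SimpleGraph V} {g : ℕ} (hG : NoShort G g) {a b : V}
    (p q : G.Walk a b) (hp : p.IsPath) (hq : q.IsPath) (hl : p.length + q.length ≤ g) :
    p = q := by
  let H : SimpleGraph V := fromEdgeSet {e | e ∈ p.edges ∨ e ∈ q.edges}
  have hpH : ∀ e ∈ p.edges, e ∈ H.edgeSet := by
    intro e he
    rw [edgeSet_fromEdgeSet]
    exact ⟨Or.inl he, fun h => G.not_isDiag_of_mem_edgeSet (p.edges_subset_edgeSet he) h⟩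
  have hqH : ∀ e ∈ q.edges, e ∈ H.edgeSet := by
    intro e he
    rw [edgeSet_fromEdgeSet]
    exact ⟨Or.inr he, fun h => G.not_isDiag_of_mem_edgeSet (q.edges_subset_edgeSet he) h⟩
  have hHG : H ≤ G := by
    rw [← edgeSet_subset_edgeSet]
    intro e he
    rw [edgeSet_fromEdgeSet] at he
    rcases he.1 with h | h
    · exact p.edges_subset_edgeSet h
    · exact q.edges_subset_edgeSet h
  have hac : H.IsAcyclic := by
    intro c w hw
    have h1 := hG c _ (hw.mapLe hHG)
    have h2 : w.length ≤ p.length + q.length := by
      have hsub : w.edges ⊆ p.edges ++ q.edges := by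
        intro e he
        have := w.edges_subset_edgeSet he
        rw [edgeSet_fromEdgeSet] at this
        exact List.mem_append.2 this.1
      have := (List.subperm_of_subset hw.isCircuit.isTrail.edges_nodup hsub).length_le
      simpa using this
    simp at h1
    omega
  have := (hac.subsingleton_path a b).elim ⟨p.transfer H hpH, hp.transfer hpH⟩
    ⟨q.transfer H hqH, hq.transfer hqH⟩
  have h3 : p.transfer H hpH = q.transfer H hqH := congrArg Subtype.val this
  apply Walk.ext_support
  rw [← Walk.support_transfer p hpH, ← Walk.support_transfer q hqH, h3]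

end Pool.Agent.R551.VP
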