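import Pool.Agent.R551.VP.Defs
import Pool.Agent.R551.VP.Girth

/-!
# Lengths with unique shortest paths

The lengths `2 ^ K + 2 ^ i`, with different `i < K` for different edges.
-/

set_option autoImplicit false
set_option linter.unusedSectionVars false

open scoped Classical

namespace Pool.Agent.R551.VP

open SimpleGraph Finset

variable {V : Type} [Fintype V]

/-- Number of unordered pairs. -/
noncomputable def KK (V : Type) [Fintype V] : ℕ := Fintype.card (Sym2 V)

/-- A numbering of the unordered pairs. -/
noncomputable def enc (e : Sym2 V) : ℕ := (Fintype.equivFin (Sym2 V) e : ℕ)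

theorem enc_lt (e : Sym2 V) : enc e < KK V := (Fintype.equivFin (Sym2 V) e).2

theorem enc_inj {e f : Sym2 V} (h : enc e = enc f) : e = f :=
  (Fintype.equivFin (Sym2 V)).injective (Fin.ext h)

/-- The length as a natural number. -/
noncomputable def lenN (e : Sym2 V) : ℕ := 2 ^ KK V + 2 ^ enc e

/-- The length. -/
noncomputable def len₀ (V : Type) [Fintype V] : Sym2 V → ℝ := fun e => (lenN e : ℝ)

/-- The length of a walk as a natural number. -/
noncomputable def wN {G : SimpleGraph V} {s t : V} (p : G.Walk s t) : ℕ := (p.edges.map lenN).sum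

theorem wlen_len₀ {G : SimpleGraph V} {s t : V} (p : G.Walk s t) : wlen (len₀ V) p = (wN p : ℝ) := by
  rw [wlen, wN, Nat.cast_list_sum, List.map_map]
  rfl

theorem isShortest_iff {G : SimpleGraph V} {s t : V} (p : G.Walk s t) :
    IsShortest (len₀ V) p ↔ ∀ q : G.Walk s t, wN p ≤ wN q := by
  simp only [IsShortest, wlen_len₀, Nat.cast_le]

theorem sum_lenN (l : List (Sym2 V)) :
    (l.map lenN).sum = l.length * 2 ^ KK V + (l.map fun e => 2 ^ enc e).sum := by
  induction l with
  | nil => simp
  | cons a l ih =>
    simp only [List.map_cons, List.sum_cons, ih, List.length_cons, lenN]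
    ring

theorem sum_pow (l : List (Sym2 V)) (hl : l.Nodup) :
    (l.map fun e => 2 ^ enc e).sum = ∑ k ∈ (l.map enc).toFinset, 2 ^ k := by
  rw [List.sum_toFinset _ (hl.map fun _ _ h => enc_inj h), List.map_map]
  rfl

theorem length_mul_le {G : SimpleGraph V} {s t : V} (p : G.Walk s t) :
    p.length * 2 ^ KK V ≤ wN p := by
  rw [wN, sum_lenN, Walk.length_edges]
  exact Nat.le_add_right _ _

theorem wN_lt {G : SimpleGraph V} {s t : V} (p : G.Walk s t) (hp : p.IsPath) :
    wN p < (p.length + 1) * 2 ^ KK V := by
  rw [wN, sum_lenN, Walk.length_edges, add_mul, one_mul]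
  gcongr
  rw [sum_pow _ hp.isTrail.edges_nodup]
  refine Nat.geomSum_lt le_rfl fun k hk => ?_
  rw [List.mem_toFinset, List.mem_map] at hk
  obtain ⟨e, _, rfl⟩ := hk
  exact enc_lt e

theorem length_le_of_shortest {G : SimpleGraph V} {s t : V} {p : G.Walk s t}
    (hp : ∀ q : G.Walk s t, wN p ≤ wN q) (q : G.Walk s t) : p.length ≤ q.bypass.length := by
  have h1 := hp q.bypass
  have h2 := length_mul_le p
  have h3 := wN_lt q.bypass q.bypass_isPath
  have h4 : p.length * 2 ^ KK V < (q.bypass.length + 1) * 2 ^ KK V := by omega
  have := Nat.lt_of_mul_lt_mul_right h4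
  omega

theorem isPath_of_shortest {G : SimpleGraph V} {s t : V} {p : G.Walk s t}
    (hp : ∀ q : G.Walk s t, wN p ≤ wN q) : p.IsPath := by
  have := Walk.bypass_eq_self_of_length_le_length_bypass p (length_le_of_shortest hp p)
  rw [← this]
  exact p.bypass_isPath

/-- Paths with the same ends and the same edges are equal. -/
theorem path_ext {G : SimpleGraph V} {s t : V} (p q : G.Walk s t) (hp : p.IsPath) (hq : q.IsPath)
    (h : ∀ e, e ∈ p.edges ↔ e ∈ q.edges) : p = q := by
  induction p with
  | nil =>
    cases q with
    | nil => rfl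
    | cons h q =>
      rw [Walk.cons_isPath_iff] at hq
      exact absurd q.end_mem_support hq.2
  | @cons s a t hsa p ih =>
    cases q with
    | nil =>
      exfalso
      have := (h s(s, a)).1 (by simp)
      simp at this
    | @cons _ b _ hsb q =>
      rw [Walk.cons_isPath_iff] at hp hq
      have hsp : ∀ x, s(s, x) ∉ p.edges := fun x hx => hp.2 (Walk.fst_mem_support_of_mem_edges _ hx)
      have hsq : ∀ x, s(s, x) ∉ q.edges := fun x hx => hq.2 (Walk.fst_mem_support_of_mem_edges _ hx)
      have hab : a = b := by
        have h1 := (h s(s, a)).1 (by simp)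
        rw [Walk.edges_cons, List.mem_cons] at h1
        rcases h1 with h1 | h1
        · rw [Sym2.eq_iff] at h1
          rcases h1 with ⟨_, h1⟩ | ⟨h1, h2⟩
          · exact h1
          · exact h2.trans h1
        · exact absurd h1 (hsq a)
      subst hab
      have : p = q := by
        refine ih q hp.1 hq.1 fun e => ?_
        have h1 := h e
        rw [Walk.edges_cons, Walk.edges_cons, List.mem_cons, List.mem_cons] at h1
        constructor
        · intro he
          rcases h1.1 (Or.inr he) with h2 | h2
          · subst h2
            exact absurd he (hsp a)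
          · exact h2
        · intro he
          rcases h1.2 (Or.inr he) with h2 | h2
          · subst h2
            exact absurd he (hsq a)
          · exact h2
      rw [this]

/-- The lengths are admissible. -/
theorem admissible_len₀ (G : SimpleGraph V) : Admissible G (len₀ V) := by
  refine ⟨fun e _ => ?_, fun s t hst => ?_⟩
  · have : 0 < lenN e := by unfold lenN; positivity
    unfold len₀
    exact_mod_cast this
  · obtain ⟨w⟩ := hst
    have hnon : Nonempty (G.Walk s t) := ⟨w⟩
    have hmin : ∃ p : G.Walk s t, ∀ q : G.Walk s t, wN p ≤ wN q := by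
      have hex : ∃ n, ∃ p : G.Walk s t, wN p = n := ⟨_, w, rfl⟩
      obtain ⟨p, hp⟩ := Nat.find_spec hex
      exact ⟨p, fun q => hp.le.trans (Nat.find_min' hex ⟨q, rfl⟩)⟩
    obtain ⟨p, hp⟩ := hmin
    refine ⟨p, (isShortest_iff p).2 hp, fun q hq => ?_⟩
    replace hq := (isShortest_iff q).1 hq
    have hpp := isPath_of_shortest hp
    have hqp := isPath_of_shortest hq
    refine path_ext q p hqp hpp ?_
    have h1 : wN p = wN q := le_antisymm (hp q) (hq p)
    have h2 : p.length = q.length :=
      le_antisymm ((length_le_of_shortest hp q).trans q.length_bypass_le_length)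
        ((length_le_of_shortest hq p).trans p.length_bypass_le_length)
    rw [wN, wN, sum_lenN, sum_lenN, Walk.length_edges, Walk.length_edges, h2,
      sum_pow _ hpp.isTrail.edges_nodup, sum_pow _ hqp.isTrail.edges_nodup] at h1
    have h3 := Finset.geomSum_injective le_rfl (Nat.add_left_cancel h1)
    intro e
    constructor
    · intro he
      have : enc e ∈ (p.edges.map enc).toFinset := by
        rw [h3, List.mem_toFinset]
        exact List.mem_map_of_mem he
      rw [List.mem_toFinset, List.mem_map] at this
      obtain ⟨f, hf, hfe⟩ := this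
      rwa [← enc_inj hfe]
    · intro he
      have : enc e ∈ (q.edges.map enc).toFinset := by
        rw [← h3, List.mem_toFinset]
        exact List.mem_map_of_mem he
      rw [List.mem_toFinset, List.mem_map] at this
      obtain ⟨f, hf, hfe⟩ := this
      rwa [← enc_inj hfe]

/-- Short paths are shortest paths. -/
theorem shortest_of_short {G : SimpleGraph V} {g : ℕ} (hG : NoShort G g) {s t : V}
    (p : G.Walk s t) (hp : p.IsPath) (hl : 2 * p.length ≤ g) : IsShortest (len₀ V) p := by
  obtain ⟨q, hq, -⟩ := (admissible_len₀ G).2 s t ⟨p⟩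
  have hq' := (isShortest_iff q).1 hq
  have h1 : q.length ≤ p.length := (length_le_of_shortest hq' p).trans p.length_bypass_le_length
  have h2 : p = q := path_unique hG p q hp (isPath_of_shortest hq') (by omega)
  rw [h2]
  exact hq

end Pool.Agent.R551.VP
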