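import Pool.Agent.R551.VP.Girth

/-!
# Many disjoint paths avoiding a small set

In a nearly cubic graph without short cycles there are many disjoint paths with `M` vertices that
avoid a given set `Q`, as long as `Q` and the paths together contain less than a quarter of all
vertices.
-/

set_option autoImplicit false
set_option linter.unusedSectionVars false

open scoped Classical

namespace Pool.Agent.R551.VP

open SimpleGraph Finset

variable {V : Type} [Fintype V]

theorem card_edge_lt_of_isAcyclic {W : Type} [Fintype W] [Nonempty W] (H : SimpleGraph W)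
    [Fintype H.edgeSet] (hH : H.IsAcyclic) : H.edgeFinset.card + 1 ≤ Fintype.card W := by
  obtain ⟨T, h1, -, h3⟩ := (connected_top (V := W)).exists_isTree_le_of_le_of_isAcyclic
    (H := H) le_top hH
  have h4 := h3.card_edgeFinset
  have h5 : H.edgeFinset ⊆ T.edgeFinset := edgeFinset_mono h1
  have := card_le_card h5
  omega

/-- Removing a set `U` with `4 |U| + 3 D ≤ |V|` leaves a cycle. -/
theorem not_acyclic (G : SimpleGraph V) (hG : ∀ v, G.degree v ≤ 3) (D : ℕ)
    (hD : (univ.filter fun v => G.degree v ≤ 2).card ≤ D) (U : Finset V)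
    (hU : 4 * U.card + 3 * D ≤ Fintype.card V) (hne : (Uᶜ : Finset V).Nonempty) :
    ¬ (G.induce {v | v ∉ U}).IsAcyclic := by
  intro hac
  obtain ⟨x, hx⟩ := hne
  have : Nonempty {v | v ∉ U} := ⟨⟨x, by simpa using hx⟩⟩
  have h2 := sum_degrees_eq_twice_card_edges (G.induce {v | v ∉ U})
  have h1 : (G.induce {v | v ∉ U}).edgeFinset.card + 1 ≤ Fintype.card {v | v ∉ U} := by
    convert card_edge_lt_of_isAcyclic _ hac
  have hcard : Fintype.card {v | v ∉ U} = Fintype.card V - U.card := by
    rw [← card_compl]
    exact Fintype.card_of_subtype _ (by simp)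
  -- the degree in the induced graph
  have h3 : ∀ w : {v | v ∉ U}, G.degree w.1 ≤ (G.induce {v | v ∉ U}).degree w +
      (U.filter fun u => G.Adj w.1 u).card := by
    intro w
    rw [← card_neighborFinset_eq_degree, ← card_neighborFinset_eq_degree]
    have : G.neighborFinset w.1 ⊆ ((G.induce {v | v ∉ U}).neighborFinset w).image (fun z => z.1) ∪
        (U.filter fun u => G.Adj w.1 u) := by
      intro y hy
      rw [mem_neighborFinset] at hy
      by_cases hyU : y ∈ U
      · exact mem_union_right _ (mem_filter.2 ⟨hyU, hy⟩)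
      · refine mem_union_left _ (mem_image.2 ⟨⟨y, hyU⟩, ?_, rfl⟩)
        rw [mem_neighborFinset]
        exact hy
    exact (card_le_card this).trans ((card_union_le _ _).trans (by gcongr; exact card_image_le))
  have h4 : ∑ w : {v | v ∉ U}, G.degree w.1 ≤ ∑ w : {v | v ∉ U}, (G.induce {v | v ∉ U}).degree w +
      ∑ w : {v | v ∉ U}, (U.filter fun u => G.Adj w.1 u).card := by
    rw [← sum_add_distrib]
    exact sum_le_sum fun w _ => h3 w
  -- the edges between `U` and the rest
  have h5 : ∑ w : {v | v ∉ U}, (U.filter fun u => G.Adj w.1 u).card ≤ 3 * U.card := by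
    have e1 : ∑ w : {v | v ∉ U}, (U.filter fun u => G.Adj w.1 u).card
        = ∑ w ∈ Uᶜ, (U.filter fun u => G.Adj w u).card := by
      refine (sum_subtype (Uᶜ) (fun w => by simp) (fun w => (U.filter fun u => G.Adj w u).card)).symm
    rw [e1]
    calc ∑ w ∈ Uᶜ, (U.filter fun u => G.Adj w u).card
        = ∑ u ∈ U, (Uᶜ.filter fun w => G.Adj w u).card :=
          sum_card_bipartiteAbove_eq_sum_card_bipartiteBelow (fun w u => G.Adj w u)
      _ ≤ ∑ u ∈ U, 3 := by
          refine sum_le_sum fun u _ => le_trans ?_ (hG u)
          rw [← card_neighborFinset_eq_degree]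
          refine card_le_card fun w hw => ?_
          rw [mem_neighborFinset]
          exact (mem_filter.1 hw).2.symm
      _ = 3 * U.card := by rw [sum_const, smul_eq_mul, mul_comm]
  -- nearly all degrees are three
  have h6 : 3 * Fintype.card {v | v ∉ U} ≤ ∑ w : {v | v ∉ U}, G.degree w.1 + 3 * D := by
    have e1 : ∑ w : {v | v ∉ U}, G.degree w.1 = ∑ w ∈ Uᶜ, G.degree w :=
      (sum_subtype (Uᶜ) (fun w => by simp) (fun w => G.degree w)).symm
    have e2 : ∑ w ∈ Uᶜ, 3 ≤ ∑ w ∈ Uᶜ, (G.degree w + if G.degree w ≤ 2 then 3 else 0) := by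
      refine sum_le_sum fun w _ => ?_
      split_ifs <;> omega
    rw [sum_add_distrib, ← sum_filter, sum_const, sum_const, smul_eq_mul, smul_eq_mul] at e2
    have e3 : ((Uᶜ).filter fun w => G.degree w ≤ 2).card ≤ D :=
      (card_le_card (filter_subset_filter _ (subset_univ _))).trans hD
    rw [e1, hcard, ← card_compl]
    omega
  have hUle : U.card ≤ Fintype.card V := card_le_univ U
  omega

/-- A path with `M` vertices in the complement of a small set. -/
theorem exists_path (G : SimpleGraph V) (hG : ∀ v, G.degree v ≤ 3) (D g : ℕ)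
    (hD : (univ.filter fun v => G.degree v ≤ 2).card ≤ D) (hg : NoShort G g) (U : Finset V)
    (hU : 4 * U.card + 3 * D ≤ Fintype.card V) (hV : 0 < Fintype.card V) (M : ℕ) (hM : M ≤ g) :
    ∃ u : ℕ → V, (∀ j < M, u j ∉ U) ∧ (∀ j, j + 1 < M → G.Adj (u j) (u (j + 1))) ∧
      ∀ j < M, ∀ j' < M, u j = u j' → j = j' := by
  have hne : (Uᶜ : Finset V).Nonempty := by
    rw [← card_pos, card_compl]
    omega
  have h := not_acyclic G hG D hD U hU hne
  rw [IsAcyclic] at h
  push Not at h
  obtain ⟨a, w, hw⟩ := h
  have hlen : g < w.length := by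
    have h1 := hg _ _ (hw.map (f := (Embedding.induce (G := G) {v | v ∉ U}).toHom)
      (Embedding.induce (G := G) {v | v ∉ U}).injective)
    rwa [Walk.length_map] at h1
  have hp := hw.isPath_tail
  have htl : w.tail.length + 1 = w.length := by
    refine Walk.length_tail_add_one ?_
    intro hnil
    have := Walk.length_eq_zero_iff.2 hnil
    omega
  refine ⟨fun j => (w.tail.getVert j).1, fun j _ => (w.tail.getVert j).2, fun j hj => ?_,
    fun j hj j' hj' h => ?_⟩
  · have : (G.induce {v | v ∉ U}).Adj (w.tail.getVert j) (w.tail.getVert (j + 1)) :=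
      w.tail.adj_getVert_succ (by omega)
    exact this
  · exact hp.getVert_injOn (by simp; omega) (by simp; omega) (Subtype.ext h)

/-- `k` disjoint paths with `M` vertices in the complement of a small set. -/
theorem exists_pieces (G : SimpleGraph V) (hG : ∀ v, G.degree v ≤ 3) (D g : ℕ)
    (hD : (univ.filter fun v => G.degree v ≤ 2).card ≤ D) (hg : NoShort G g) (Q : Finset V)
    (M : ℕ) (hM : M ≤ g) (hV : 0 < Fintype.card V) (k : ℕ)
    (hQ : 4 * (Q.card + k * M) + 3 * D ≤ Fintype.card V) :
    ∃ u : ℕ → ℕ → V, (∀ i < k, ∀ j < M, u i j ∉ Q) ∧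
      (∀ i < k, ∀ j, j + 1 < M → G.Adj (u i j) (u i (j + 1))) ∧
      ∀ i < k, ∀ j < M, ∀ i' < k, ∀ j' < M, u i j = u i' j' → i = i' ∧ j = j' := by
  induction k with
  | zero =>
    have hne : Nonempty V := Fintype.card_pos_iff.1 hV
    exact ⟨fun _ _ => hne.some, fun i hi => absurd hi (by omega),
      fun i hi => absurd hi (by omega), fun i hi => absurd hi (by omega)⟩
  | succ k ih =>
    have e : (k + 1) * M = k * M + M := by ring
    obtain ⟨u, h1, h2, h3⟩ := ih (by omega)
    let B : Finset V := (range k ×ˢ range M).image fun p => u p.1 p.2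
    have hB : B.card ≤ k * M := card_image_le.trans (by simp)
    have hU : (Q ∪ B).card ≤ Q.card + k * M := (card_union_le _ _).trans (by omega)
    obtain ⟨v, g1, g2, g3⟩ := exists_path G hG D g hD hg (Q ∪ B) (by omega) hV M hM
    have hB' : ∀ i < k, ∀ j < M, u i j ∈ B := fun i hi j hj =>
      mem_image.2 ⟨(i, j), by simp [hi, hj], rfl⟩
    refine ⟨Function.update u k v, ?_, ?_, ?_⟩
    · intro i hi j hj
      by_cases hik : i = k
      · subst hik
        rw [Function.update_self]
        exact fun h => g1 j hj (mem_union_left _ h)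
      · rw [Function.update_of_ne hik]
        exact h1 i (by omega) j hj
    · intro i hi j hj
      by_cases hik : i = k
      · subst hik
        rw [Function.update_self]
        exact g2 j hj
      · rw [Function.update_of_ne hik]
        exact h2 i (by omega) j hj
    · intro i hi j hj i' hi' j' hj' h
      by_cases hik : i = k
      · subst hik
        by_cases hik' : i' = i
        · subst hik'
          rw [Function.update_self] at h
          exact ⟨rfl, g3 j hj j' hj' h⟩
        · rw [Function.update_self, Function.update_of_ne hik'] at h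
          exact absurd (mem_union_right _ (h ▸ hB' i' (by omega) j' hj')) (g1 j hj)
      · by_cases hik' : i' = k
        · subst hik'
          rw [Function.update_self, Function.update_of_ne hik] at h
          exact absurd (mem_union_right _ (h ▸ hB' i (by omega) j hj)) (g1 j' hj')
        · rw [Function.update_of_ne hik, Function.update_of_ne hik'] at h
          exact h3 i (by omega) j hj i' (by omega) j' hj' h

end Pool.Agent.R551.VP
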