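import Pool.Agent.R551.VP.Adversary
import Pool.Agent.R551.VP.Pieces

/-!
# Linearly many vantage points are needed
-/

set_option autoImplicit false
set_option linter.unusedSectionVars false

open scoped Classical

namespace Pool.Agent.R551.VP

open SimpleGraph Finset

variable {V : Type} [Fintype V]

/-- The walk `u 0, u 1, …, u j`. -/
theorem exists_walk (G : SimpleGraph V) (M : ℕ) (u : ℕ → V)
    (h2 : ∀ j, j + 1 < M → G.Adj (u j) (u (j + 1)))
    (h3 : ∀ j < M, ∀ j' < M, u j = u j' → j = j') (j : ℕ) (hj : j < M) :
    ∃ p : G.Walk (u 0) (u j), p.IsPath ∧ p.length = j ∧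
      (∀ x ∈ p.support, ∃ t ≤ j, x = u t) ∧ ∀ e ∈ p.edges, ∃ t < j, e = s(u t, u (t + 1)) := by
  induction j with
  | zero => exact ⟨Walk.nil, Walk.IsPath.nil, rfl, fun x hx => ⟨0, le_rfl, by simpa using hx⟩,
      fun e he => by simp at he⟩
  | succ j ih =>
    obtain ⟨p, hp, hl, hs, he⟩ := ih (by omega)
    refine ⟨p.concat (h2 j hj), ?_, by rw [Walk.length_concat, hl], ?_, ?_⟩
    · rw [Walk.concat_isPath_iff]
      refine ⟨hp, fun hx => ?_⟩
      obtain ⟨t, ht, hxt⟩ := hs _ hx
      have := h3 (j + 1) hj t (by omega) hxt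
      omega
    · intro x hx
      rw [Walk.support_concat, List.mem_append, List.mem_singleton] at hx
      rcases hx with hx | rfl
      · obtain ⟨t, ht, hxt⟩ := hs x hx
        exact ⟨t, by omega, hxt⟩
      · exact ⟨j + 1, le_rfl, rfl⟩
    · intro e hx
      rw [Walk.edges_concat, List.concat_eq_append, List.mem_append, List.mem_singleton] at hx
      rcases hx with hx | rfl
      · obtain ⟨t, ht, hxt⟩ := he e hx
        exact ⟨t, by omega, hxt⟩
      · exact ⟨j, by omega, rfl⟩

/-- The main step: if an algorithm always reveals at least `OPT` capacities, then it uses more than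
`m` vantage points for some capacities. -/
theorem lower_bound (G : SimpleGraph V) (hG : ∀ v, G.degree v ≤ 3) (D g M k m : ℕ)
    (hD : (univ.filter fun v => G.degree v ≤ 2).card ≤ D) (hg : NoShort G g)
    (hM : 2 * M ≤ g) (hM1 : 1 ≤ M) (hV : 0 < Fintype.card V)
    (hn : 4 * (m + k * M) + 3 * D ≤ Fintype.card V) (hm : 3 * m < k * (M - 1))
    (A : Algorithm V)
    (hA : ∀ c : Sym2 V → ℝ, (∀ e, 0 < c e) → Function.Injective c →
      ∃ S, EndsWith A G (len₀ V) c S ∧ RevealsOpt G (len₀ V) c k S) :
    ∃ c : Sym2 V → ℝ, (∀ e, 0 < c e) ∧ Function.Injective c ∧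
      ∀ S, EndsWith A G (len₀ V) c S → m < S.card := by
  have hA' : ∀ c : Sym2 V → ℝ, (∀ e, 0 < c e) → Function.Injective c →
      ∃ hf, Run A G (len₀ V) c hf ∧ A hf = none := by
    intro c h1 h2
    obtain ⟨S, ⟨hf, h3, h4, -⟩, -⟩ := hA c h1 h2
    exact ⟨hf, h3, h4⟩
  rcases st_all hA' (m + 1) with ⟨l, h, hl, hst, hstop⟩ | ⟨l, h, hnd, hl, hst⟩
  · -- the algorithm stops
    by_cases hlm : l.toFinset.card ≤ m
    · exfalso
      obtain ⟨u, h1, h2, h3⟩ := exists_pieces G hG D g hD hg l.toFinset M (by omega) hV k (by omega)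
      have hu : ∀ i < k, ∀ j < M, u i j ∉ l := fun i hi j hj => by simpa using h1 i hi j hj
      -- the position of a vertex in its path
      let pos : V → ℕ := fun v =>
        if hv : ∃ p : ℕ × ℕ, p.1 < k ∧ p.2 < M ∧ u p.1 p.2 = v then hv.choose.2 else 0
      have hpos : ∀ i < k, ∀ j < M, pos (u i j) = j := by
        intro i hi j hj
        have hv : ∃ p : ℕ × ℕ, p.1 < k ∧ p.2 < M ∧ u p.1 p.2 = u i j := ⟨(i, j), hi, hj, rfl⟩
        have hsp := hv.choose_spec
        show (if hv : ∃ p : ℕ × ℕ, p.1 < k ∧ p.2 < M ∧ u p.1 p.2 = u i j then hv.choose.2 else 0) = j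
        rw [dif_pos hv]
        exact (h3 _ hsp.1 _ hsp.2.1 _ hi _ hj hsp.2.2).2
      let dep : Sym2 V → ℕ := Sym2.lift ⟨fun x y => max (pos x) (pos y), fun x y => max_comm _ _⟩
      have hdep : ∀ i < k, ∀ j, j + 1 < M → dep s(u i j, u i (j + 1)) = j + 1 := by
        intro i hi j hj
        show max (pos (u i j)) (pos (u i (j + 1))) = j + 1
        rw [hpos i hi j (by omega), hpos i hi (j + 1) hj]
        omega
      let f : Sym2 V → ℕ := fun e => if ∃ v ∈ l, v ∈ e then idx l e else l.length + (M - dep e)
      let c : Sym2 V → ℝ := fun e => ((f e * KK V + enc e + 1 : ℕ) : ℝ)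
      have hc : c ∈ CC l := by
        refine mem_CC l f (fun e he => if_pos he) fun e he => ?_
        have : ¬ ∃ v ∈ l, v ∈ e := by push Not; exact he
        show l.length ≤ if ∃ v ∈ l, v ∈ e then idx l e else l.length + (M - dep e)
        rw [if_neg this]
        omega
      have hf : ∀ i < k, ∀ j, j + 1 < M → f s(u i j, u i (j + 1)) = l.length + (M - (j + 1)) := by
        intro i hi j hj
        have : ¬ ∃ v ∈ l, v ∈ s(u i j, u i (j + 1)) := by
          rintro ⟨v, hv, hve⟩
          rw [Sym2.mem_iff] at hve
          rcases hve with rfl | rfl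
          · exact hu i hi j (by omega) hv
          · exact hu i hi (j + 1) hj hv
        show (if ∃ v ∈ l, v ∈ s(u i j, u i (j + 1)) then _ else _) = _
        rw [if_neg this, hdep i hi j hj]
      -- what the algorithm reveals
      obtain ⟨S, ⟨hfin, hr, hs, hSv⟩, hopt⟩ := hA c hc.1 hc.2.1
      obtain ⟨r, hr1⟩ := run_prefix (hst.2 c hc) hr hs
      obtain ⟨r', hr2⟩ := run_prefix hr (hst.2 c hc) hstop
      have hfin_eq : hfin = h := by
        have : hfin.length = h.length := by
          have e1 := congrArg List.length hr1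
          have e2 := congrArg List.length hr2
          rw [List.length_append] at e1 e2
          omega
        have : r = [] := by
          have e1 := congrArg List.length hr1
          rw [List.length_append] at e1
          exact List.length_eq_zero_iff.1 (by omega)
        rw [hr1, this, List.append_nil]
      have hSl : ∀ v, v ∈ S ↔ v ∈ l := by
        intro v
        rw [hSv v, hst.1 v, hfin_eq]
      have hle : (revealed G (len₀ V) c S).ncard ≤ 3 * l.toFinset.card :=
        ncard_revealed_le' hG hc S hSl
      -- the better vantage points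
      let S' : Finset V := (range k).image fun i => u i 0
      have hS' : S'.card = k := by
        rw [card_image_of_injOn, card_range]
        intro i hi i' hi' hii
        rw [coe_range, Set.mem_Iio] at hi hi'
        exact (h3 i hi 0 (by omega) i' hi' 0 (by omega) hii).1
      have hrev : ((range k ×ˢ range (M - 1)).image (fun p => s(u p.1 p.2, u p.1 (p.2 + 1))) :
          Finset (Sym2 V)).card = k * (M - 1) := by
        rw [card_image_of_injOn, card_product, card_range, card_range]
        rintro ⟨i, j⟩ hij ⟨i', j'⟩ hij' heq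
        rw [coe_product, Set.mem_prod, coe_range, coe_range, Set.mem_Iio, Set.mem_Iio] at hij hij'
        simp only at hij hij' heq
        rw [Sym2.eq_iff] at heq
        rcases heq with ⟨e1, e2⟩ | ⟨e1, e2⟩
        · obtain ⟨rfl, rfl⟩ := h3 i hij.1 j (by omega) i' hij'.1 j' (by omega) e1
          rfl
        · have := h3 i hij.1 j (by omega) i' hij'.1 (j' + 1) (by omega) e1
          have := h3 i hij.1 (j + 1) (by omega) i' hij'.1 j' (by omega) e2
          omega
      have hsub : (((range k ×ˢ range (M - 1)).image (fun p => s(u p.1 p.2, u p.1 (p.2 + 1))) :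
          Finset (Sym2 V)) : Set (Sym2 V)) ⊆ revealed G (len₀ V) c S' := by
        intro e he
        rw [Finset.mem_coe, mem_image] at he
        obtain ⟨⟨i, j⟩, hij, rfl⟩ := he
        rw [mem_product, mem_range, mem_range] at hij
        simp only at hij ⊢
        have hi := hij.1
        have hj : j + 1 < M := by omega
        obtain ⟨p, hp, hpl, -, hpe⟩ := exists_walk G M (u i) (h2 i hi)
          (fun j hj j' hj' h => (h3 i hi j hj i hi j' hj' h).2) j (by omega)
        have hq : (p.concat (h2 i hi j hj)).IsPath := by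
          obtain ⟨q, hq, hql, -, hqe⟩ := exists_walk G M (u i) (h2 i hi)
            (fun j hj j' hj' h => (h3 i hi j hj i hi j' hj' h).2) (j + 1) hj
          rw [Walk.concat_isPath_iff]
          refine ⟨hp, ?_⟩
          obtain ⟨p', hp', hpl', hps', -⟩ := exists_walk G M (u i) (h2 i hi)
            (fun j hj j' hj' h => (h3 i hi j hj i hi j' hj' h).2) j (by omega)
          have hpp : p = p' := path_unique hg p p' hp hp' (by omega)
          intro hx
          rw [hpp] at hx
          obtain ⟨t, ht, hxt⟩ := hps' _ hx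
          have := (h3 i hi (j + 1) hj i hi t (by omega) hxt).2
          omega
        refine ⟨u i 0, mem_image.2 ⟨i, mem_range.2 hi, rfl⟩, u i (j + 1),
          p.concat (h2 i hi j hj), shortest_of_short hg _ hq (by rw [Walk.length_concat]; omega),
          by simp [Walk.edges_concat], fun e' he' hne => ?_⟩
        rw [Walk.edges_concat, List.concat_eq_append, List.mem_append, List.mem_singleton] at he'
        rcases he' with he' | he'
        · obtain ⟨t, ht, rfl⟩ := hpe e' he'
          show ((f s(u i j, u i (j + 1)) * KK V + enc s(u i j, u i (j + 1)) + 1 : ℕ) : ℝ) <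
            ((f s(u i t, u i (t + 1)) * KK V + enc s(u i t, u i (t + 1)) + 1 : ℕ) : ℝ)
          rw [hf i hi j hj, hf i hi t (by omega)]
          have h5 := enc_lt s(u i j, u i (j + 1))
          have h6 : (l.length + (M - (j + 1)) + 1) * KK V ≤ (l.length + (M - (t + 1))) * KK V :=
            Nat.mul_le_mul_right _ (by omega)
          rw [add_mul, one_mul] at h6
          exact_mod_cast (by omega : (l.length + (M - (j + 1))) * KK V +
            enc s(u i j, u i (j + 1)) + 1 < (l.length + (M - (t + 1))) * KK V +
            enc s(u i t, u i (t + 1)) + 1)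
        · exact absurd he' hne
      have h7 := Set.ncard_le_ncard hsub (Set.toFinite _)
      rw [Set.ncard_coe_finset, hrev] at h7
      have h8 := hopt S' hS'
      omega
    · obtain ⟨c, hc⟩ := CC_nonempty l
      refine ⟨c, hc.1, hc.2.1, fun S hS => ?_⟩
      obtain ⟨hfin, hr, hs, hSv⟩ := hS
      obtain ⟨r, hr1⟩ := run_prefix (hst.2 c hc) hr hs
      have hsub : l.toFinset ⊆ S := by
        intro v hv
        rw [List.mem_toFinset, hst.1 v] at hv
        obtain ⟨x, hx, hxv⟩ := hv
        rw [hSv v]
        exact ⟨x, by rw [hr1]; exact List.mem_append_left _ hx, hxv⟩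
      have := card_le_card hsub
      omega
  · -- the algorithm has chosen `m + 1` vantage points
    obtain ⟨c, hc⟩ := CC_nonempty l
    refine ⟨c, hc.1, hc.2.1, fun S hS => ?_⟩
    obtain ⟨hfin, hr, hs, hSv⟩ := hS
    obtain ⟨r, hr1⟩ := run_prefix (hst.2 c hc) hr hs
    have hsub : l.toFinset ⊆ S := by
      intro v hv
      rw [List.mem_toFinset, hst.1 v] at hv
      obtain ⟨x, hx, hxv⟩ := hv
      rw [hSv v]
      exact ⟨x, by rw [hr1]; exact List.mem_append_left _ hx, hxv⟩
    have := card_le_card hsub
    rw [List.toFinset_card_of_nodup hnd] at this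
    omega

end Pool.Agent.R551.VP
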